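import Pool.Agent.H93.KE.Kernel

/-! Numerical instances of the kernel lemma, base 3 and base 5. -/

namespace Pool.Agent.H93.KE

open Finset

variable {q : ℕ}

lemma ent_of_pow (N : Fin q → Fin q → ℕ) (D E t : ℕ) (hq : 1 < q) (hD : 0 < D) (ht : 0 < t)
    (hpos : ∀ v a, 0 < N v a) (hs : ∀ v, ∑ a, N v a = D)
    (h : q ^ E * (∏ v, ∏ a, N v a ^ N v a) ^ t ≤ D ^ (t * (q * D))) :
    ((E:ℝ) / (t * (q * D))) * Real.log q ≤ ∑ z, pw N D z * Real.log (D / N z.1 z.2) := by
  have hq0 : (0:ℝ) < q := by positivity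
  have hD0 : (0:ℝ) < D := by exact_mod_cast hD
  have ht0 : (0:ℝ) < t := by exact_mod_cast ht
  have hN0 : ∀ v a, (0:ℝ) < N v a := fun v a => by exact_mod_cast hpos v a
  have hR : (q:ℝ) ^ E * (∏ v, ∏ a, (N v a : ℝ) ^ N v a) ^ t ≤ (D:ℝ) ^ (t * (q * D)) := by
    exact_mod_cast h
  have hP : 0 < ∏ v, ∏ a, (N v a : ℝ) ^ N v a :=
    prod_pos fun v _ => prod_pos fun a _ => pow_pos (hN0 v a) _
  have hlog := Real.log_le_log (by positivity) hR
  rw [Real.log_mul (by positivity) (by positivity), Real.log_pow, Real.log_pow, Real.log_pow,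
    Real.log_prod (fun v _ => (prod_pos fun a _ => pow_pos (hN0 v a) _).ne')] at hlog
  have hin : ∀ v, Real.log (∏ a, (N v a : ℝ) ^ N v a) = ∑ a, (N v a : ℝ) * Real.log (N v a) := by
    intro v
    rw [Real.log_prod (fun a _ => (pow_pos (hN0 v a) _).ne')]
    apply sum_congr rfl; intro a _; rw [Real.log_pow]
  simp only [hin] at hlog
  have hsum : ∑ z, pw N D z * Real.log (D / N z.1 z.2)
      = Real.log D - (∑ v, ∑ a, (N v a : ℝ) * Real.log (N v a)) / (q * D) := by
    rw [Fintype.sum_prod_type]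
    have h1 : ∀ v, ∑ a, pw N D (v, a) * Real.log (D / N v a)
        = Real.log D / q - (∑ a, (N v a : ℝ) * Real.log (N v a)) / (q * D) := by
      intro v
      have h2 : ∀ a, pw N D (v, a) * Real.log (D / N v a)
          = (Real.log D / (q * D)) * N v a - ((N v a : ℝ) * Real.log (N v a)) / (q * D) := by
        intro a
        unfold pw
        rw [Real.log_div hD0.ne' (hN0 v a).ne']; ring
      simp only [h2, sum_sub_distrib, ← mul_sum, ← sum_div]
      have : ∑ a, (N v a : ℝ) = D := by rw [← hs v]; push_cast; rfl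
      rw [this]
      congr 1
      field_simp
    simp only [h1, sum_sub_distrib, ← sum_div]
    congr 1
    rw [sum_const, card_univ, Fintype.card_fin, nsmul_eq_mul]
    field_simp
  rw [hsum, div_mul_eq_mul_div, div_le_iff₀ (by positivity)]
  have hqD : (q:ℝ) * D ≠ 0 := by positivity
  have e1 : (Real.log D - (∑ v, ∑ a, (N v a : ℝ) * Real.log (N v a)) / (q * D)) * (t * (q * D))
      = (t * (q * D)) * Real.log D - t * ∑ v, ∑ a, (N v a : ℝ) * Real.log (N v a) := by
    field_simp
  rw [e1]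
  push_cast at hlog
  linarith

/-- Lemma K in base 3. -/
theorem kernel3 (ε : ℝ) (hε : 0 < ε) (M : ℕ) :
    ∃ m ≥ M, ∃ T : (Fin m → Fin 3) → Finset (Fin m → Fin 3),
      (∀ V, (T V).Nonempty) ∧ (∀ V, (3:ℝ) ^ ((1 - 193 / 750 - ε) * m) ≤ ((T V).card : ℝ)) ∧
      (((univ.filter fun V => ∃ A ∈ T V, (cc A V : ℝ) < (33 / 38 - ε) * m).card : ℝ)
        ≤ ε * (3:ℝ) ^ m) := by
  have h := kernel_gen N3 50 (by norm_num) (by norm_num) N3_pos N3_sum (193/750) (33/38)
    (74/150) (66/150) (by norm_num)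
    (by
      have := ent_of_pow N3 50 557 5 (by norm_num) (by norm_num) (by norm_num) N3_pos N3_sum N3_pow
      refine le_trans (le_of_eq ?_) this
      norm_num)
    (by
      rw [Fintype.sum_prod_type]
      simp only [Fin.sum_univ_three, pw, N3, Fin.isValue]
      simp
      norm_num)
    (by
      rw [Fintype.sum_prod_type]
      simp only [Fin.sum_univ_three, pw, N3, Fin.isValue]
      simp
      norm_num)
    (by norm_num) (by norm_num) ε hε M
  exact_mod_cast h

/-- Lemma K in base 5. -/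
theorem kernel5 (ε : ℝ) (hε : 0 < ε) (M : ℕ) :
    ∃ m ≥ M, ∃ T : (Fin m → Fin 5) → Finset (Fin m → Fin 5),
      (∀ V, (T V).Nonempty) ∧ (∀ V, (5:ℝ) ^ ((1 - 393 / 1500 - ε) * m) ≤ ((T V).card : ℝ)) ∧
      (((univ.filter fun V => ∃ A ∈ T V, (cc A V : ℝ) < (86 / 95 - ε) * m).card : ℝ)
        ≤ ε * (5:ℝ) ^ m) := by
  have h := kernel_gen N5 60 (by norm_num) (by norm_num) N5_pos N5_sum (393/1500) (86/95)
    (110/300) (172/300) (by norm_num)
    (by
      have := ent_of_pow N5 60 1107 5 (by norm_num) (by norm_num) (by norm_num) N5_pos N5_sum N5_pow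
      refine le_trans (le_of_eq ?_) this
      norm_num)
    (by
      rw [Fintype.sum_prod_type]
      simp only [Fin.sum_univ_five, pw, N5, Fin.isValue]
      simp
      norm_num)
    (by
      rw [Fintype.sum_prod_type]
      simp only [Fin.sum_univ_five, pw, N5, Fin.isValue]
      simp
      norm_num)
    (by norm_num) (by norm_num) ε hε M
  exact_mod_cast h

end Pool.Agent.H93.KE
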