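import Pool.Agent.H93.KE.Defs

/-! Mean of the carry count of an iid string. -/

namespace Pool.Agent.H93.KE

open Finset

variable {q : ℕ}

/-- event: the carry at position `i` is decided at position `j`. -/
def ev {b : ℕ} (A V : Fin b → Fin q) (i j : Fin b) : Prop :=
  i ≤ j ∧ (∀ t, i ≤ t → t < j → A t = V t) ∧ V j < A j

instance {b : ℕ} (A V : Fin b → Fin q) (i j : Fin b) : Decidable (ev A V i j) := by
  unfold ev; infer_instance

lemma cc_ge_ev {b : ℕ} (A V : Fin b → Fin q) :
    ∑ i : Fin b, ∑ j : Fin b, (if ev A V i j then (1:ℝ) else 0) ≤ (cc A V : ℝ) := by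
  classical
  have h : (cc A V : ℝ) = ∑ i : Fin b, (if ∃ j, ev A V i j then (1:ℝ) else 0) := by
    unfold cc cset
    rw [card_filter]
    push_cast
    rfl
  rw [h]
  apply sum_le_sum
  intro i _
  by_cases hi : ∃ j, ev A V i j
  · rw [if_pos hi]
    obtain ⟨j0, hj0⟩ := hi
    have : ∀ j, ev A V i j → j = j0 := by
      intro j hj
      rcases lt_trichotomy j j0 with h | h | h
      · exact absurd hj.2.2 (by rw [hj0.2.1 j hj.1 h]; exact lt_irrefl _)
      · exact h
      · exact absurd hj0.2.2 (by rw [hj.2.1 j0 hj0.1 h]; exact lt_irrefl _)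
    calc ∑ j : Fin b, (if ev A V i j then (1:ℝ) else 0)
        ≤ ∑ j : Fin b, (if j = j0 then (1:ℝ) else 0) := by
          apply sum_le_sum
          intro j _
          by_cases hj : ev A V i j
          · rw [if_pos hj, if_pos (this j hj)]
          · rw [if_neg hj]; split_ifs <;> norm_num
      _ = 1 := by simp
  · rw [if_neg hi]
    push Not at hi
    apply le_of_eq
    apply sum_eq_zero
    intro j _
    rw [if_neg (hi j)]

/-- the product-measure mass of the event `ev i j`. -/
lemma mass_ev {b : ℕ} (p : Fin q × Fin q → ℝ) (h1 : ∑ x, p x = 1) (i j : Fin b) (hij : i ≤ j) :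
    ∑ P : Fin b → Fin q × Fin q, (∏ t, p (P t)) *
        (if ev (fun t => (P t).2) (fun t => (P t).1) i j then (1:ℝ) else 0)
      = (∑ x, p x * (if x.2 = x.1 then 1 else 0)) ^ ((j:ℕ) - i)
          * (∑ x, p x * (if x.1 < x.2 then 1 else 0)) := by
  classical
  set e := ∑ x, p x * (if x.2 = x.1 then (1:ℝ) else 0) with he
  set u := ∑ x, p x * (if x.1 < x.2 then (1:ℝ) else 0) with hu
  let h : Fin b → (Fin q × Fin q) → ℝ := fun t x =>
    if i ≤ t ∧ t < j then (if x.2 = x.1 then 1 else 0)
    else if t = j then (if x.1 < x.2 then 1 else 0) else 1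
  have hind : ∀ P : Fin b → Fin q × Fin q,
      (if ev (fun t => (P t).2) (fun t => (P t).1) i j then (1:ℝ) else 0) = ∏ t, h t (P t) := by
    intro P
    by_cases hP : ev (fun t => (P t).2) (fun t => (P t).1) i j
    · rw [if_pos hP]
      symm
      apply prod_eq_one
      intro t _
      simp only [h]
      split_ifs with h1 h2 h3 h4
      · rfl
      · exact absurd (hP.2.1 t h1.1 h1.2) h2
      · rfl
      · subst h3; exact absurd hP.2.2 h4
      · rfl
    · rw [if_neg hP]
      symm
      unfold ev at hP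
      push Not at hP
      have hP' := hP hij
      by_cases hall : ∀ t, i ≤ t → t < j → (P t).2 = (P t).1
      · have hj := hP' hall
        apply prod_eq_zero (mem_univ j)
        simp only [h]
        rw [if_neg (fun hh => lt_irrefl _ hh.2), if_pos trivial, if_neg (not_lt.2 hj)]
      · push Not at hall
        obtain ⟨t, ht1, ht2, ht3⟩ := hall
        apply prod_eq_zero (mem_univ t)
        simp only [h]
        rw [if_pos ⟨ht1, ht2⟩, if_neg ht3]
  have hfac : ∀ t, ∑ x, p x * h t x = if i ≤ t ∧ t < j then e else if t = j then u else 1 := by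
    intro t
    have h1' := h1
    simp only [h]
    split_ifs with h1 h2
    · rfl
    · rfl
    · simpa using h1'
  calc ∑ P : Fin b → Fin q × Fin q, (∏ t, p (P t)) *
        (if ev (fun t => (P t).2) (fun t => (P t).1) i j then (1:ℝ) else 0)
      = ∑ P : Fin b → Fin q × Fin q, ∏ t, (p (P t) * h t (P t)) := by
        apply sum_congr rfl; intro P _; rw [hind P, prod_mul_distrib]
    _ = ∏ t, ∑ x, p x * h t x := by
        have := (Finset.prod_univ_sum (fun _ : Fin b => (univ : Finset (Fin q × Fin q)))
          (fun t x => p x * h t x)).symm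
        rw [Fintype.piFinset_univ] at this
        exact this
    _ = ∏ t : Fin b, (if i ≤ t ∧ t < j then e else if t = j then u else 1) := by
        apply prod_congr rfl; intro t _; exact hfac t
    _ = e ^ ((j:ℕ) - i) * u := by
        rw [prod_ite, prod_const]
        congr 1
        · congr 1
          rw [← Fin.card_Ico]
          congr 1
          ext t; simp
        · rw [prod_ite_eq']
          rw [if_pos]
          simp

lemma sum_Ico_pow (b i : ℕ) (e u : ℝ) :
    ∑ j ∈ range b, (if i ≤ j then e ^ (j - i) * u else 0) = u * ∑ d ∈ range (b - i), e ^ d := by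
  rw [← sum_filter]
  have : (range b).filter (fun j => i ≤ j) = Ico i b := by
    ext j; simp [and_comm]
  rw [this, sum_Ico_eq_sum_range, mul_sum]
  apply sum_congr rfl
  intro d _
  rw [Nat.add_sub_cancel_left]; ring

/-- lower bound of the mean of the carry count -/
lemma mean_cc {b : ℕ} (p : Fin q × Fin q → ℝ) (h0 : ∀ x, 0 ≤ p x) (h1 : ∑ x, p x = 1)
    (e u : ℝ) (he : e = ∑ x, p x * (if x.2 = x.1 then 1 else 0))
    (hu : u = ∑ x, p x * (if x.1 < x.2 then 1 else 0)) (he1 : e < 1) :
    u / (1 - e) * (b - 1 / (1 - e)) ≤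
      ∑ P : Fin b → Fin q × Fin q, (∏ t, p (P t)) *
        (cc (fun t => (P t).2) (fun t => (P t).1) : ℝ) := by
  classical
  have he0 : 0 ≤ e := by
    rw [he]; apply sum_nonneg; intro x _; apply mul_nonneg (h0 x); split_ifs <;> norm_num
  have hu0 : 0 ≤ u := by
    rw [hu]; apply sum_nonneg; intro x _; apply mul_nonneg (h0 x); split_ifs <;> norm_num
  have h1e : 0 < 1 - e := by linarith
  have hstep : ∑ i : Fin b, ∑ j : Fin b, (if i ≤ j then e ^ ((j:ℕ) - i) * u else 0) ≤
      ∑ P : Fin b → Fin q × Fin q, (∏ t, p (P t)) *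
        (cc (fun t => (P t).2) (fun t => (P t).1) : ℝ) := by
    calc ∑ i : Fin b, ∑ j : Fin b, (if i ≤ j then e ^ ((j:ℕ) - i) * u else 0)
        = ∑ i : Fin b, ∑ j : Fin b, ∑ P : Fin b → Fin q × Fin q, (∏ t, p (P t)) *
        (if ev (fun t => (P t).2) (fun t => (P t).1) i j then (1:ℝ) else 0) := by
          apply sum_congr rfl; intro i _
          apply sum_congr rfl; intro j _
          by_cases hij : i ≤ j
          · rw [if_pos hij, mass_ev p h1 i j hij, he, hu]
          · rw [if_neg hij]
            symm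
            apply sum_eq_zero
            intro P _
            rw [if_neg (fun h => hij h.1), mul_zero]
      _ = ∑ P : Fin b → Fin q × Fin q, (∏ t, p (P t)) * ∑ i : Fin b, ∑ j : Fin b,
        (if ev (fun t => (P t).2) (fun t => (P t).1) i j then (1:ℝ) else 0) := by
          simp only [mul_sum]
          rw [sum_congr rfl (fun i _ => sum_comm), sum_comm]
      _ ≤ _ := by
          apply sum_le_sum
          intro P _
          apply mul_le_mul_of_nonneg_left (cc_ge_ev _ _)
          exact prod_nonneg fun t _ => h0 _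
  refine le_trans ?_ hstep
  have hin : ∀ i : Fin b, ∑ j : Fin b, (if i ≤ j then e ^ ((j:ℕ) - i) * u else 0)
      = u * ∑ d ∈ range (b - (i:ℕ)), e ^ d := by
    intro i
    rw [← sum_Ico_pow b i e u]
    rw [← Fin.sum_univ_eq_sum_range (fun j => if (i:ℕ) ≤ j then e ^ (j - (i:ℕ)) * u else 0) b]
    apply sum_congr rfl
    intro j _
    simp only [Fin.le_def]
  simp only [hin]
  rw [Fin.sum_univ_eq_sum_range (fun i => u * ∑ d ∈ range (b - i), e ^ d) b]
  have hgeo : ∀ n : ℕ, ∑ d ∈ range n, e ^ d = (1 - e ^ n) / (1 - e) := by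
    intro n
    rw [geom_sum_eq (by linarith : e ≠ 1)]
    rw [div_eq_div_iff (by linarith) (by linarith)]; ring
  simp only [hgeo]
  have hrefl : ∑ i ∈ range b, e ^ (b - i) ≤ 1 / (1 - e) := by
    have h2 : ∑ i ∈ range b, e ^ (b - i) = ∑ i ∈ range b, e ^ (i + 1) := by
      rw [← sum_range_reflect]
      apply sum_congr rfl
      intro i hi
      rw [mem_range] at hi
      congr 1
      omega
    rw [h2]
    have h3 : ∑ i ∈ range b, e ^ (i + 1) = e * ((1 - e ^ b) / (1 - e)) := by
      rw [← hgeo, mul_sum]; apply sum_congr rfl; intro i _; ring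
    rw [h3, ← mul_div_assoc]
    apply div_le_div_of_nonneg_right _ h1e.le
    have : 0 ≤ e ^ b := pow_nonneg he0 b
    nlinarith
  have hsum : ∑ i ∈ range b, u * ((1 - e ^ (b - i)) / (1 - e))
      = u / (1 - e) * (b - ∑ i ∈ range b, e ^ (b - i)) := by
    rw [← mul_sum, ← sum_div, sum_sub_distrib]
    simp
    ring
  rw [hsum]
  apply mul_le_mul_of_nonneg_left _ (div_nonneg hu0 h1e.le)
  linarith

end Pool.Agent.H93.KE
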