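import Mathlib

/-! Chernoff bound for iid functions on a finite probability space. -/

namespace Pool.Agent.H93.KE

open Finset

variable {Ω : Type*} [Fintype Ω]

/-- total mass of the product measure is one -/
lemma prod_mass {n : ℕ} (p : Ω → ℝ) (h1 : ∑ x, p x = 1) :
    ∑ P : Fin n → Ω, ∏ i, p (P i) = 1 := by
  classical
  have := (Finset.prod_univ_sum (fun _ : Fin n => (univ : Finset Ω)) (fun _ x => p x)).symm
  rw [Fintype.piFinset_univ] at this
  rw [this]; simp [h1]

/-- exponential moment of a bounded centred function -/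
lemma exp_moment (p g : Ω → ℝ) (h0 : ∀ x, 0 ≤ p x) (h1 : ∑ x, p x = 1)
    (hg : ∑ x, p x * g x = 0) (B s : ℝ) (hB : ∀ x, |g x| ≤ B) (hs : 0 ≤ s) (hsB : s * B ≤ 1) :
    ∑ x, p x * Real.exp (-(s * g x)) ≤ Real.exp (s ^ 2 * B ^ 2) := by
  have key : ∀ x, Real.exp (-(s * g x)) ≤ 1 + (-(s * g x)) + (s * g x) ^ 2 := by
    intro x
    have hx : |-(s * g x)| ≤ 1 := by
      rw [abs_neg, abs_mul, abs_of_nonneg hs]
      exact (mul_le_mul_of_nonneg_left (hB x) hs).trans hsB
    have := Real.abs_exp_sub_one_sub_id_le hx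
    have h2 := (abs_le.1 this).2
    nlinarith [h2]
  have hb : ∀ x, (s * g x) ^ 2 ≤ s ^ 2 * B ^ 2 := by
    intro x
    rw [mul_pow]
    have : g x ^ 2 ≤ B ^ 2 := by
      have h := hB x
      have := abs_le_abs_of_nonneg (abs_nonneg (g x)) h |>.trans (le_refl _)
      nlinarith [abs_nonneg (g x), sq_abs (g x), h]
    exact mul_le_mul_of_nonneg_left this (sq_nonneg s)
  calc ∑ x, p x * Real.exp (-(s * g x))
      ≤ ∑ x, p x * (1 + (-(s * g x)) + s ^ 2 * B ^ 2) := by
        apply sum_le_sum; intro x _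
        apply mul_le_mul_of_nonneg_left _ (h0 x)
        linarith [key x, hb x]
    _ = (1 + s ^ 2 * B ^ 2) := by
        have : ∀ x, p x * (1 + (-(s * g x)) + s ^ 2 * B ^ 2)
            = (1 + s ^ 2 * B ^ 2) * p x - s * (p x * g x) := by intro x; ring
        simp only [this, sum_sub_distrib, ← mul_sum, h1, hg]; ring
    _ ≤ Real.exp (s ^ 2 * B ^ 2) := by
        linarith [Real.add_one_le_exp (s ^ 2 * B ^ 2)]

/-- Chernoff: lower tail of a sum of iid bounded centred functions. -/
lemma chernoff {n : ℕ} (p g : Ω → ℝ) (h0 : ∀ x, 0 ≤ p x) (h1 : ∑ x, p x = 1)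
    (hg : ∑ x, p x * g x = 0) (B δ : ℝ) (hB0 : 0 < B) (hB : ∀ x, |g x| ≤ B) (hδ : 0 ≤ δ)
    (hδB : δ ≤ 2 * B) :
    ∑ P ∈ (univ : Finset (Fin n → Ω)).filter (fun P => ∑ i, g (P i) ≤ -(n * δ)),
      ∏ i, p (P i) ≤ Real.exp (-(n * δ ^ 2 / (4 * B ^ 2))) := by
  classical
  set s : ℝ := δ / (2 * B ^ 2) with hs
  have hs0 : 0 ≤ s := by positivity
  have hsB : s * B ≤ 1 := by
    rw [hs, div_mul_eq_mul_div, div_le_one (by positivity)]
    nlinarith
  have hpt : ∀ P : Fin n → Ω, 0 ≤ ∏ i, p (P i) := fun P => prod_nonneg fun i _ => h0 _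
  calc ∑ P ∈ (univ : Finset (Fin n → Ω)).filter (fun P => ∑ i, g (P i) ≤ -(n * δ)),
      ∏ i, p (P i)
      ≤ ∑ P ∈ (univ : Finset (Fin n → Ω)).filter (fun P => ∑ i, g (P i) ≤ -(n * δ)),
        (∏ i, p (P i)) * Real.exp (-(s * (n * δ))) * Real.exp (-(s * ∑ i, g (P i))) := by
        apply sum_le_sum
        intro P hP
        rw [mem_filter] at hP
        have : (1:ℝ) ≤ Real.exp (-(s * (n * δ))) * Real.exp (-(s * ∑ i, g (P i))) := by
          rw [← Real.exp_add]
          apply Real.one_le_exp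
          have := mul_le_mul_of_nonneg_left hP.2 hs0
          linarith
        rw [mul_assoc]
        exact le_mul_of_one_le_right (hpt P) this
    _ ≤ ∑ P : Fin n → Ω,
        (∏ i, p (P i)) * Real.exp (-(s * (n * δ))) * Real.exp (-(s * ∑ i, g (P i))) := by
        apply sum_le_sum_of_subset_of_nonneg (filter_subset _ _)
        intro P _ _
        have := hpt P
        positivity
    _ = Real.exp (-(s * (n * δ))) * ∑ P : Fin n → Ω, ∏ i, (p (P i) * Real.exp (-(s * g (P i)))) := by
        rw [mul_sum]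
        apply sum_congr rfl
        intro P _
        rw [prod_mul_distrib, ← Real.exp_sum, sum_neg_distrib, ← mul_sum]
        ring
    _ = Real.exp (-(s * (n * δ))) * (∑ x, p x * Real.exp (-(s * g x))) ^ n := by
        have := (Finset.prod_univ_sum (fun _ : Fin n => (univ : Finset Ω))
          (fun _ x => p x * Real.exp (-(s * g x)))).symm
        rw [Fintype.piFinset_univ] at this
        rw [this]; simp
    _ ≤ Real.exp (-(s * (n * δ))) * (Real.exp (s ^ 2 * B ^ 2)) ^ n := by
        apply mul_le_mul_of_nonneg_left _ (Real.exp_nonneg _)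
        apply pow_le_pow_left₀
        · exact sum_nonneg fun x _ => mul_nonneg (h0 x) (Real.exp_nonneg _)
        · exact exp_moment p g h0 h1 hg B s hB hs0 hsB
    _ = Real.exp (-(n * δ ^ 2 / (4 * B ^ 2))) := by
        rw [← Real.exp_nat_mul, ← Real.exp_add]
        congr 1
        rw [hs]; field_simp; ring

end Pool.Agent.H93.KE
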