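import Mathlib

/-! MP_1f2761, kernel part: tables, carry count inside a string. -/

namespace Pool.Agent.H93.KE

open Finset

/-- carry positions decided inside the string (index 0 = top digit). -/
def cset {q m : ℕ} (A V : Fin m → Fin q) : Finset (Fin m) :=
  univ.filter fun i => ∃ j, i ≤ j ∧ (∀ t, i ≤ t → t < j → A t = V t) ∧ V j < A j

/-- number of carry positions decided inside the string. -/
def cc {q m : ℕ} (A V : Fin m → Fin q) : ℕ := (cset A V).card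

/-- table for base 3 (row `v`, column `a`), row sums 50 -/
def N3 : Fin 3 → Fin 3 → ℕ := ![![12, 19, 19], ![2, 20, 28], ![4, 4, 42]]

/-- table for base 5 (row `v`, column `a`), row sums 60 -/
def N5 : Fin 5 → Fin 5 → ℕ :=
  ![![12, 12, 12, 12, 12], ![1, 11, 16, 16, 16], ![1, 1, 14, 22, 22], ![1, 1, 1, 25, 32],
    ![3, 3, 3, 3, 48]]

lemma N3_sum (v : Fin 3) : ∑ a, N3 v a = 50 := by fin_cases v <;> decide
lemma N5_sum (v : Fin 5) : ∑ a, N5 v a = 60 := by fin_cases v <;> decide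
lemma N3_pos (v a : Fin 3) : 0 < N3 v a := by fin_cases v <;> fin_cases a <;> decide
lemma N5_pos (v a : Fin 5) : 0 < N5 v a := by fin_cases v <;> fin_cases a <;> decide

lemma N3_prod : (∏ v, ∏ a, N3 v a ^ N3 v a)
    = 12 ^ 12 * 19 ^ 19 * 19 ^ 19 * (2 ^ 2 * 20 ^ 20 * 28 ^ 28) * (4 ^ 4 * 4 ^ 4 * 42 ^ 42) := by
  rfl

lemma N5_prod : (∏ v, ∏ a, N5 v a ^ N5 v a)
    = (12 ^ 12 * 12 ^ 12 * 12 ^ 12 * 12 ^ 12 * 12 ^ 12) * (1 ^ 1 * 11 ^ 11 * 16 ^ 16 * 16 ^ 16 * 16 ^ 16)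
      * (1 ^ 1 * 1 ^ 1 * 14 ^ 14 * 22 ^ 22 * 22 ^ 22) * (1 ^ 1 * 1 ^ 1 * 1 ^ 1 * 25 ^ 25 * 32 ^ 32)
      * (3 ^ 3 * 3 ^ 3 * 3 ^ 3 * 3 ^ 3 * 48 ^ 48) := by
  rfl

set_option exponentiation.threshold 3000 in
/-- integer form of the entropy inequality, base 3. -/
lemma N3_pow : (3:ℕ) ^ 557 * (∏ v, ∏ a, N3 v a ^ N3 v a) ^ 5 ≤ 50 ^ (5 * (3 * 50)) := by
  rw [N3_prod]; norm_num

set_option exponentiation.threshold 3000 in
/-- integer form of the entropy inequality, base 5. -/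
lemma N5_pow : (5:ℕ) ^ 1107 * (∏ v, ∏ a, N5 v a ^ N5 v a) ^ 5 ≤ 60 ^ (5 * (5 * 60)) := by
  rw [N5_prod]; norm_num

end Pool.Agent.H93.KE
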