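import Pool.Agent.H93.KE.Defs

/-! Superadditivity of the carry count under cutting into sub-strings. -/

namespace Pool.Agent.H93.KE

open Finset

/-- the `k`-th sub-string of length `b` -/
def sub {X : Type*} {n b : ℕ} (A : Fin (n * b) → X) (k : Fin n) : Fin b → X :=
  fun j => A (finProdFinEquiv (k, j))

lemma fin_val {n b : ℕ} (k : Fin n) (j : Fin b) :
    (finProdFinEquiv (k, j) : ℕ) = j + b * k := rfl

lemma cc_super {q n b : ℕ} (A V : Fin (n * b) → Fin q) :
    ∑ k, cc (sub A k) (sub V k) ≤ cc A V := by
  classical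
  have h1 : ∑ k, cc (sub A k) (sub V k)
      = ((univ : Finset (Fin n)).sigma fun k => cset (sub A k) (sub V k)).card := by
    rw [card_sigma]; rfl
  rw [h1]
  apply card_le_card_of_injOn (fun x => finProdFinEquiv (x.1, x.2))
  · intro x hx
    rw [mem_coe, mem_sigma] at hx
    obtain ⟨_, hx⟩ := hx
    unfold cset at hx
    rw [mem_filter] at hx
    obtain ⟨_, j, hij, heq, hlt⟩ := hx
    rw [mem_coe]
    unfold cset
    rw [mem_filter]
    refine ⟨mem_univ _, finProdFinEquiv (x.1, j), ?_, ?_, hlt⟩
    · rw [Fin.le_def, fin_val, fin_val]; have := Fin.le_def.1 hij; omega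
    · intro t ht1 ht2
      rw [Fin.le_def, fin_val] at ht1
      rw [Fin.lt_def, fin_val] at ht2
      have hb : 0 < b := lt_of_le_of_lt (Nat.zero_le _) j.2
      have hd : (t : ℕ) / b = x.1 := by
        apply Nat.div_eq_of_lt_le
        · nlinarith [ht1]
        · have := j.2
          nlinarith [ht2]
      have ht : t = finProdFinEquiv (x.1, ⟨(t:ℕ) % b, Nat.mod_lt _ hb⟩) := by
        apply Fin.ext
        rw [fin_val]
        simp only
        rw [← hd]
        exact (Nat.mod_add_div _ _).symm
      rw [ht]
      apply heq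
      · rw [Fin.le_def]
        simp only
        have h := Nat.mod_add_div (t:ℕ) b
        rw [hd] at h
        omega
      · rw [Fin.lt_def]
        simp only
        have h := Nat.mod_add_div (t:ℕ) b
        rw [hd] at h
        omega
  · intro x _ y _ hxy
    have := finProdFinEquiv.injective hxy
    obtain ⟨x1, x2⟩ := x
    obtain ⟨y1, y2⟩ := y
    simp only [Prod.mk.injEq] at this
    obtain ⟨h1, h2⟩ := this
    subst h1; subst h2; rfl

end Pool.Agent.H93.KE
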