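import Pool.Agent.H93.KE.Chern
import Pool.Agent.H93.KE.Super
import Pool.Agent.H93.KE.Block

/-! Lemma K: the kernel sets `T_V`. -/

namespace Pool.Agent.H93.KE

open Finset

variable {q : ℕ}

/-- product mass transported to blocks -/
lemma sum_blocks {X : Type*} [Fintype X] {n b : ℕ} (p : X → ℝ)
    (F : (Fin n → Fin b → X) → ℝ) :
    ∑ P : Fin (n * b) → X, (∏ i, p (P i)) * F (fun k => sub P k)
      = ∑ R : Fin n → Fin b → X, (∏ k, ∏ j, p (R k j)) * F R := by
  classical
  let E : (Fin (n * b) → X) ≃ (Fin n → Fin b → X) :=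
    (Equiv.arrowCongr finProdFinEquiv.symm (Equiv.refl X)).trans (Equiv.curry (Fin n) (Fin b) X)
  rw [← E.sum_comp (fun R => (∏ k, ∏ j, p (R k j)) * F R)]
  apply sum_congr rfl
  intro P _
  have hE : E P = fun k => sub P k := by
    funext k j; rfl
  rw [hE]
  congr 1
  rw [← Fintype.prod_prod_type' (fun (k : Fin n) (j : Fin b) => p (sub P k j))]
  exact (finProdFinEquiv.prod_comp (fun i => p (P i))).symm

/-- the pair weight -/
noncomputable def pw (N : Fin q → Fin q → ℕ) (D : ℕ) (x : Fin q × Fin q) : ℝ :=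
  (N x.1 x.2 : ℝ) / (q * D)

lemma pw_nonneg (N : Fin q → Fin q → ℕ) (D : ℕ) (x : Fin q × Fin q) : 0 ≤ pw N D x := by
  unfold pw; positivity

lemma pw_sum (N : Fin q → Fin q → ℕ) (D : ℕ) (hq : 0 < q) (hD : 0 < D)
    (hs : ∀ v, ∑ a, N v a = D) : ∑ x, pw N D x = 1 := by
  unfold pw
  rw [← sum_div, Fintype.sum_prod_type]
  have : ∀ v, ∑ a, (N v a : ℝ) = D := by intro v; rw [← hs v]; push_cast; rfl
  simp only [this]
  have hq' : (q:ℝ) ≠ 0 := by positivity
  have hD' : (D:ℝ) ≠ 0 := by positivity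
  simp [hq', hD']

theorem kernel_gen (N : Fin q → Fin q → ℕ) (D : ℕ) (hq : 1 < q) (hD : 0 < D)
    (hpos : ∀ v a, 0 < N v a) (hs : ∀ v, ∑ a, N v a = D) (κ x e u : ℝ) (hκ : 0 ≤ κ)
    (hent : (1 - κ) * Real.log q ≤ ∑ z, pw N D z * Real.log (D / N z.1 z.2))
    (he : e = ∑ z, pw N D z * (if z.2 = z.1 then 1 else 0))
    (hu : u = ∑ z, pw N D z * (if z.1 < z.2 then 1 else 0)) (he1 : e < 1)
    (hx : x = u / (1 - e)) (ε : ℝ) (hε : 0 < ε) (M : ℕ) :
    ∃ m ≥ M, ∃ T : (Fin m → Fin q) → Finset (Fin m → Fin q),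
      (∀ V, (T V).Nonempty) ∧ (∀ V, (q:ℝ) ^ ((1 - κ - ε) * m) ≤ ((T V).card : ℝ)) ∧
      (((univ.filter fun V => ∃ A ∈ T V, (cc A V : ℝ) < (x - ε) * m).card : ℝ)
        ≤ ε * (q:ℝ) ^ m) := by
  classical
  have hq0 : (0:ℝ) < q := by positivity
  have hq1 : (1:ℝ) < q := by exact_mod_cast hq
  have hlq : 0 < Real.log q := Real.log_pos hq1
  have hD0 : (0:ℝ) < D := by exact_mod_cast hD
  have hN0 : ∀ v a, (0:ℝ) < N v a := fun v a => by exact_mod_cast hpos v a
  have hp0 := pw_nonneg N D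
  have hp1 := pw_sum N D (by omega) hD hs
  set H : ℝ := ∑ z, pw N D z * Real.log (D / N z.1 z.2) with hH
  -- constants
  obtain ⟨b, hb⟩ : ∃ b : ℕ, 4 * (|x| / (1 - e) + 1) / ε < b := exists_nat_gt _
  have h1e : 0 < 1 - e := by linarith
  have hb0 : 0 < b := by
    have : (0:ℝ) < b := lt_of_le_of_lt (by positivity) hb
    exact_mod_cast this
  have hbR : (0:ℝ) < b := by exact_mod_cast hb0
  set δ : ℝ := ε * Real.log q / 4 with hδ
  have hδ0 : 0 < δ := by positivity
  -- first function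
  set g1 : Fin q × Fin q → ℝ := fun z => Real.log (D / N z.1 z.2) - H with hg1
  obtain ⟨B1, hB1⟩ : ∃ B : ℝ, ∀ z, |g1 z| ≤ B := by
    refine ⟨∑ z, |g1 z|, fun z => ?_⟩
    exact single_le_sum (f := fun z => |g1 z|) (fun _ _ => abs_nonneg _) (mem_univ z)
  set B1' : ℝ := |B1| + δ + 1 with hB1'
  have hB1pos : 0 < B1' := by positivity
  have hB1b : ∀ z, |g1 z| ≤ B1' := fun z => (hB1 z).trans (by rw [hB1']; linarith [le_abs_self B1])
  have hc1 : ∑ z, pw N D z * g1 z = 0 := by
    simp only [hg1, mul_sub, sum_sub_distrib, ← sum_mul, hp1, one_mul]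
    rw [← hH]; ring
  -- second function
  let ccP : (Fin b → Fin q × Fin q) → ℝ := fun P => (cc (fun t => (P t).2) (fun t => (P t).1) : ℝ)
  let pb : (Fin b → Fin q × Fin q) → ℝ := fun P => ∏ t, pw N D (P t)
  have hpb0 : ∀ P, 0 ≤ pb P := fun P => prod_nonneg fun t _ => hp0 _
  have hpb1 : ∑ P, pb P = 1 := prod_mass _ hp1
  set μ : ℝ := ∑ P, pb P * ccP P with hμ
  have hμlow : x * (b - 1 / (1 - e)) ≤ μ := by
    rw [hx]; exact mean_cc (b := b) (pw N D) hp0 hp1 e u he hu he1
  set g2 : (Fin b → Fin q × Fin q) → ℝ := fun P => ccP P - μ with hg2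
  obtain ⟨B2, hB2⟩ : ∃ B : ℝ, ∀ z, |g2 z| ≤ B := by
    refine ⟨∑ z, |g2 z|, fun z => ?_⟩
    exact single_le_sum (f := fun z => |g2 z|) (fun _ _ => abs_nonneg _) (mem_univ z)
  set δ2 : ℝ := ε * b / 2 with hδ2
  have hδ20 : 0 < δ2 := by positivity
  set B2' : ℝ := |B2| + δ2 + 1 with hB2'
  have hB2pos : 0 < B2' := by positivity
  have hB2b : ∀ z, |g2 z| ≤ B2' := fun z => (hB2 z).trans (by rw [hB2']; linarith [le_abs_self B2])
  have hc2 : ∑ z, pb z * g2 z = 0 := by
    simp only [hg2, mul_sub, sum_sub_distrib, ← sum_mul, hpb1, one_mul]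
    rw [← hμ]; ring
  -- choose n
  have hlim1 : Filter.Tendsto (fun n : ℕ => Real.exp (-(n * δ ^ 2 / (4 * B1' ^ 2)))) Filter.atTop
      (nhds 0) := by
    apply Real.tendsto_exp_neg_atTop_nhds_zero.comp
    apply Filter.Tendsto.atTop_div_const (by positivity)
    exact Filter.Tendsto.atTop_mul_const (by positivity) tendsto_natCast_atTop_atTop
  have hlim2 : Filter.Tendsto (fun n : ℕ => Real.exp (-(n * δ2 ^ 2 / (4 * B2' ^ 2)))) Filter.atTop
      (nhds 0) := by
    apply Real.tendsto_exp_neg_atTop_nhds_zero.comp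
    apply Filter.Tendsto.atTop_div_const (by positivity)
    exact Filter.Tendsto.atTop_mul_const (by positivity) tendsto_natCast_atTop_atTop
  have hlim3 : Filter.Tendsto (fun n : ℕ => Real.exp (n * δ)) Filter.atTop Filter.atTop := by
    apply Real.tendsto_exp_atTop.comp
    exact Filter.Tendsto.atTop_mul_const hδ0 tendsto_natCast_atTop_atTop
  have hε4 : (0:ℝ) < ε / 4 := by positivity
  have ev1 := hlim1.eventually (gt_mem_nhds hε4)
  have ev2 := hlim2.eventually (gt_mem_nhds hε4)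
  have ev3 := hlim3.eventually (Filter.eventually_ge_atTop 2)
  obtain ⟨n1, hn1⟩ := Filter.eventually_atTop.1 (ev1.and (ev2.and ev3))
  set n : ℕ := max (max n1 M) 1 with hn
  have hnn1 : n1 ≤ n := le_trans (le_max_left _ _) (le_max_left _ _)
  have hnM : M ≤ n := le_trans (le_max_right _ _) (le_max_left _ _)
  have hn0 : 1 ≤ n := le_max_right _ _
  have hmn : n ≤ n * b := Nat.le_mul_of_pos_right _ hb0
  have hE1 : Real.exp (-(((n * b : ℕ) : ℝ) * δ ^ 2 / (4 * B1' ^ 2))) < ε / 4 :=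
    (hn1 _ (hnn1.trans hmn)).1
  have hE2 : Real.exp (-((n : ℝ) * δ2 ^ 2 / (4 * B2' ^ 2))) < ε / 4 := (hn1 _ hnn1).2.1
  have hE3 : 2 ≤ Real.exp (((n * b : ℕ) : ℝ) * δ) := (hn1 _ (hnn1.trans hmn)).2.2
  refine ⟨n * b, hnM.trans hmn, ?_⟩
  set m : ℕ := n * b with hm
  have hmR : (m:ℝ) = n * b := by rw [hm]; push_cast; ring
  -- bad events on pair strings
  let AA : (Fin m → Fin q × Fin q) → (Fin m → Fin q) := fun P i => (P i).2
  let VV : (Fin m → Fin q × Fin q) → (Fin m → Fin q) := fun P i => (P i).1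
  let bad1 : (Fin m → Fin q × Fin q) → Prop := fun P => ∑ i, g1 (P i) ≤ -(m * δ)
  let bad2 : (Fin m → Fin q × Fin q) → Prop := fun P => (cc (AA P) (VV P) : ℝ) < (x - ε) * m
  let W : (Fin m → Fin q × Fin q) → ℝ := fun P => ∏ i, pw N D (P i)
  have hW0 : ∀ P, 0 ≤ W P := fun P => prod_nonneg fun i _ => hp0 _
  have hbad1 : ∑ P ∈ univ.filter bad1, W P ≤ ε / 4 := by
    refine (chernoff (n := m) (pw N D) g1 hp0 hp1 hc1 B1' δ hB1pos hB1b hδ0.le ?_).trans hE1.le
    rw [hB1']; linarith [abs_nonneg B1]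
  have hbad2 : ∑ P ∈ univ.filter bad2, W P ≤ ε / 4 := by
    have hch := chernoff (n := n) pb g2 hpb0 hpb1 hc2 B2' δ2 hB2pos hB2b hδ20.le
      (by rw [hB2']; linarith [abs_nonneg B2])
    refine le_trans ?_ (hch.trans hE2.le)
    have h1 : ∑ P ∈ univ.filter bad2, W P ≤ ∑ P : Fin (n * b) → Fin q × Fin q,
        (∏ i, pw N D (P i)) *
          (if ∑ k, g2 (sub P k) ≤ -(n * δ2) then (1:ℝ) else 0) := by
      rw [sum_filter]
      apply sum_le_sum
      intro P _
      by_cases hP : bad2 P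
      · rw [if_pos hP, if_pos, mul_one]
        have hsup := cc_super (n := n) (b := b) (AA P) (VV P)
        have hsup' : (∑ k, ccP (sub P k)) ≤ (cc (AA P) (VV P) : ℝ) := by
          have : ((∑ k, cc (sub (AA P) k) (sub (VV P) k) : ℕ) : ℝ) ≤ (cc (AA P) (VV P) : ℝ) := by
            exact_mod_cast hsup
          push_cast at this
          exact this
        have hP' : (cc (AA P) (VV P) : ℝ) < (x - ε) * m := hP
        have hs2 : ∑ k, g2 (sub P k) = (∑ k, ccP (sub P k)) - n * μ := by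
          simp only [hg2, sum_sub_distrib]; simp
        rw [hs2]
        have hbb : |x| / (1 - e) ≤ ε * b / 4 := by
          rw [div_lt_iff₀ hε] at hb
          linarith
        have hx2 : x * (1 / (1 - e)) ≤ |x| / (1 - e) := by
          rw [mul_one_div]; exact div_le_div_of_nonneg_right (le_abs_self x) h1e.le
        have hnR : (1:ℝ) ≤ n := by exact_mod_cast hn0
        have hlow : (n:ℝ) * (x * b - ε * b / 4) ≤ n * μ := by
          apply mul_le_mul_of_nonneg_left _ (by linarith)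
          linarith
        rw [hδ2]
        rw [hmR] at hP'
        have hnn : 0 ≤ ε * (n * b) := by positivity
        linarith
      · rw [if_neg hP]
        have := hW0 P
        apply mul_nonneg (hW0 P)
        split_ifs <;> norm_num
    refine h1.trans (le_of_eq ?_)
    rw [sum_blocks (pw N D) (fun R => if ∑ k, g2 (R k) ≤ -(n * δ2) then (1:ℝ) else 0)]
    rw [sum_filter]
    apply sum_congr rfl
    intro R _
    split_ifs
    · rw [mul_one]
    · rw [mul_zero]
  -- conditional weights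
  let Kc : (Fin m → Fin q) → (Fin m → Fin q) → ℝ := fun V A => ∏ i, ((N (V i) (A i) : ℝ) / D)
  have hKc0 : ∀ V A, 0 ≤ Kc V A := fun V A => prod_nonneg fun i _ => by positivity
  have hKc1 : ∀ V, ∑ A, Kc V A = 1 := by
    intro V
    have := (Finset.prod_univ_sum (fun _ : Fin m => (univ : Finset (Fin q)))
      (fun i a => (N (V i) a : ℝ) / D)).symm
    rw [Fintype.piFinset_univ] at this
    rw [this]
    apply prod_eq_one
    intro i _
    rw [← sum_div]
    have : ∑ a, (N (V i) a : ℝ) = D := by rw [← hs (V i)]; push_cast; rfl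
    rw [this]; exact div_self hD0.ne'
  let mk : (Fin m → Fin q) → (Fin m → Fin q) → (Fin m → Fin q × Fin q) := fun V A i => (V i, A i)
  have hWK : ∀ V A, W (mk V A) = ((q:ℝ) ^ m)⁻¹ * Kc V A := by
    intro V A
    simp only [W, Kc, mk, pw]
    rw [prod_div_distrib, prod_div_distrib, prod_const, prod_const, card_univ, Fintype.card_fin,
      mul_pow, inv_mul_eq_div, div_div, mul_comm ((D:ℝ) ^ m)]
  let G : (Fin m → Fin q) → Finset (Fin m → Fin q) := fun V =>
    univ.filter fun A => ¬ bad1 (mk V A) ∧ ¬ bad2 (mk V A)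
  let Good : (Fin m → Fin q) → Prop := fun V => (1:ℝ)/2 ≤ ∑ A ∈ G V, Kc V A
  -- total mass of bad
  have hbadtot : ∑ V, ((q:ℝ) ^ m)⁻¹ * ∑ A ∈ (G V)ᶜ, Kc V A ≤ ε / 2 := by
    have h1 : ∑ V, ((q:ℝ) ^ m)⁻¹ * ∑ A ∈ (G V)ᶜ, Kc V A
        = ∑ P ∈ univ.filter (fun P : Fin m → Fin q × Fin q => bad1 P ∨ bad2 P), W P := by
      rw [sum_filter]
      rw [← (Equiv.arrowProdEquivProdArrow (Fin m) (fun _ => Fin q) (fun _ => Fin q)).symm.sum_comp]
      rw [Fintype.sum_prod_type]
      apply sum_congr rfl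
      intro V _
      rw [mul_sum]
      have hcompl : (G V)ᶜ = univ.filter fun A => bad1 (mk V A) ∨ bad2 (mk V A) := by
        ext A
        simp only [G, mem_compl, mem_filter, mem_univ, true_and]
        tauto
      rw [hcompl, sum_filter]
      apply sum_congr rfl
      intro A _
      have hmk : (Equiv.arrowProdEquivProdArrow (Fin m) (fun _ => Fin q) (fun _ => Fin q)).symm (V, A)
          = mk V A := by
        funext i; rfl
      rw [hmk, hWK]
    rw [h1]
    calc ∑ P ∈ univ.filter (fun P : Fin m → Fin q × Fin q => bad1 P ∨ bad2 P), W P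
        ≤ ∑ P ∈ univ.filter bad1, W P + ∑ P ∈ univ.filter bad2, W P := by
          rw [filter_or]
          have := sum_union_inter (s₁ := univ.filter bad1) (s₂ := univ.filter bad2) (f := W)
          have h2 : 0 ≤ ∑ P ∈ univ.filter bad1 ∩ univ.filter bad2, W P :=
            sum_nonneg fun P _ => hW0 P
          linarith
      _ ≤ ε / 2 := by linarith
  have hbadV : (((univ.filter fun V => ¬ Good V).card : ℝ)) ≤ ε * (q:ℝ) ^ m := by
    have hqm : (0:ℝ) < (q:ℝ) ^ m := by positivity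
    have h1 : ∑ V ∈ univ.filter (fun V => ¬ Good V), ((q:ℝ) ^ m)⁻¹ * (1 / 2) ≤ ε / 2 := by
      refine le_trans ?_ hbadtot
      calc ∑ V ∈ univ.filter (fun V => ¬ Good V), ((q:ℝ) ^ m)⁻¹ * (1 / 2)
          ≤ ∑ V ∈ univ.filter (fun V => ¬ Good V), ((q:ℝ) ^ m)⁻¹ * ∑ A ∈ (G V)ᶜ, Kc V A := by
            apply sum_le_sum
            intro V hV
            rw [mem_filter] at hV
            apply mul_le_mul_of_nonneg_left _ (by positivity)
            have h2 := sum_add_sum_compl (G V) (Kc V)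
            rw [hKc1] at h2
            have h3 : ¬ ((1:ℝ)/2 ≤ ∑ A ∈ G V, Kc V A) := hV.2
            linarith
        _ ≤ _ := by
            apply sum_le_sum_of_subset_of_nonneg (filter_subset _ _)
            intro V _ _
            apply mul_nonneg (by positivity)
            exact sum_nonneg fun A _ => hKc0 V A
    rw [sum_const, nsmul_eq_mul] at h1
    have h2 : ((univ.filter fun V => ¬ Good V).card : ℝ) * (((q:ℝ) ^ m)⁻¹ * (1 / 2)) * (2 * (q:ℝ) ^ m)
        ≤ ε / 2 * (2 * (q:ℝ) ^ m) := mul_le_mul_of_nonneg_right h1 (by positivity)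
    have h3 : ((univ.filter fun V => ¬ Good V).card : ℝ) * (((q:ℝ) ^ m)⁻¹ * (1 / 2)) * (2 * (q:ℝ) ^ m)
        = ((univ.filter fun V => ¬ Good V).card : ℝ) := by field_simp
    rw [h3] at h2
    linarith
  -- size of G V
  have hsize : ∀ V, Good V → (q:ℝ) ^ ((1 - κ - ε) * m) ≤ ((G V).card : ℝ) := by
    intro V hV
    have hterm : ∀ A ∈ G V, Kc V A ≤ Real.exp (-(m * (H - δ))) := by
      intro A hA
      rw [mem_filter] at hA
      have hb1 : ¬ (∑ i, g1 (mk V A i) ≤ -(m * δ)) := hA.2.1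
      have hlog : Kc V A = Real.exp (-∑ i, Real.log (D / N (V i) (A i))) := by
        rw [← sum_neg_distrib, Real.exp_sum]
        apply prod_congr rfl
        intro i _
        rw [Real.exp_neg, Real.exp_log (div_pos hD0 (hN0 _ _)), inv_div]
      rw [hlog]
      apply Real.exp_le_exp.2
      have hsum : ∑ i, g1 (mk V A i) = (∑ i, Real.log (D / N (V i) (A i))) - m * H := by
        simp only [hg1, sum_sub_distrib, mk]; simp
      rw [hsum] at hb1
      push Not at hb1
      linarith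
    have h1 : (1:ℝ)/2 ≤ ((G V).card : ℝ) * Real.exp (-(m * (H - δ))) := by
      refine le_trans (show (1:ℝ)/2 ≤ ∑ A ∈ G V, Kc V A from hV) ?_
      refine (sum_le_sum hterm).trans ?_
      rw [sum_const, nsmul_eq_mul]
    have h2 : Real.exp (m * (H - 2 * δ)) ≤ ((G V).card : ℝ) := by
      have h3 : Real.exp (m * (H - δ)) * (1/2) ≤ (G V).card := by
        have h4 := mul_le_mul_of_nonneg_left h1 (Real.exp_nonneg (m * (H - δ)))
        have h5 : Real.exp (m * (H - δ)) * (((G V).card : ℝ) * Real.exp (-(m * (H - δ))))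
            = (G V).card := by
          rw [mul_comm, mul_assoc, ← Real.exp_add]; simp
        rw [h5] at h4; exact h4
      have h6 : Real.exp (m * (H - 2 * δ)) * Real.exp (m * δ) = Real.exp (m * (H - δ)) := by
        rw [← Real.exp_add]; ring_nf
      have h7 : 0 < Real.exp (m * (H - 2 * δ)) := Real.exp_pos _
      have h8 := mul_le_mul_of_nonneg_left hE3 h7.le
      linarith
    refine le_trans ?_ h2
    rw [Real.rpow_def_of_pos hq0]
    apply Real.exp_le_exp.2
    have hm0 : (0:ℝ) ≤ m := by positivity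
    have : (1 - κ - ε) * Real.log q ≤ H - 2 * δ := by
      rw [hδ]; linarith [mul_pos hε hlq]
    calc Real.log q * ((1 - κ - ε) * m) = m * ((1 - κ - ε) * Real.log q) := by ring
      _ ≤ m * (H - 2 * δ) := mul_le_mul_of_nonneg_left this hm0
  refine ⟨fun V => if Good V then G V else univ, ?_, ?_, ?_⟩
  · intro V
    simp only
    by_cases hV : Good V
    · rw [if_pos hV]
      rw [← card_pos]
      have h1 := hsize V hV
      have h2 : (0:ℝ) < ((G V).card : ℝ) := lt_of_lt_of_le (Real.rpow_pos_of_pos hq0 _) h1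
      exact_mod_cast h2
    · rw [if_neg hV]
      have : Nonempty (Fin m → Fin q) := ⟨V⟩
      exact univ_nonempty
  · intro V
    simp only
    by_cases hV : Good V
    · rw [if_pos hV]; exact hsize V hV
    · rw [if_neg hV]
      rw [card_univ, Fintype.card_fun, Fintype.card_fin, Fintype.card_fin]
      push_cast
      rw [← Real.rpow_natCast]
      apply Real.rpow_le_rpow_of_exponent_le hq1.le
      have hm0 : (0:ℝ) ≤ m := by positivity
      linarith [mul_nonneg hκ hm0, mul_nonneg hε.le hm0]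
  · refine le_trans ?_ hbadV
    have : (univ.filter fun V => ∃ A ∈ (if Good V then G V else univ), (cc A V : ℝ) < (x - ε) * m)
        ⊆ univ.filter fun V => ¬ Good V := by
      intro V hV
      rw [mem_filter] at hV ⊢
      refine ⟨mem_univ _, fun hg => ?_⟩
      obtain ⟨_, A, hA, hlt⟩ := hV
      rw [if_pos hg] at hA
      rw [mem_filter] at hA
      exact hA.2.2 hlt
    exact_mod_cast card_le_card this

end Pool.Agent.H93.KE
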